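import Mathlib
import Pool.Agent.LeoC.CountStmts

/-!
# Squad LEOC, module CNT: the final inequality of the counting part (port of Helper33_LeoK.Cnt)
-/

set_option autoImplicit false

open NumberField NumberField.InfinitePlace NumberField.mixedEmbedding IsDedekindDomain Module
  MeasureTheory Filter Topology
open Pool.Agent.LeoK Pool.Agent.LeoG Pool.Agent.LeoC

namespace Pool.Agent.LeoC.H89

/-- the choice of the small parameter -/
theorem small {c ε r : ℝ} (hc : 0 < c) (hε : 0 < ε) (hr0 : 0 < r) (hr : r ≤ 1 / 2) :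
    ∃ θ : ℝ, 0 < θ ∧ θ ≤ 1 / 2 ∧ θ < c ∧
    2 * θ + (c * r + θ) / (1 - θ) ≤ (r + ε) * (c - θ) := by
  have h5 : 0 < 5 + c + ε := by positivity
  obtain ⟨θ, hθ⟩ : ∃ θ : ℝ, θ = min (1 / 2) (min (c / 2) (ε * c / (5 + c + ε))) := ⟨_, rfl⟩
  have h1 : θ ≤ 1 / 2 := by rw [hθ]; exact min_le_left _ _
  have h2 : θ ≤ ε * c / (5 + c + ε) := by
    rw [hθ]; exact (min_le_right _ _).trans (min_le_right _ _)
  have h2' : θ ≤ c / 2 := by
    rw [hθ]; exact (min_le_right _ _).trans (min_le_left _ _)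
  have h0 : 0 < θ := by
    rw [hθ]
    exact lt_min (by norm_num) (lt_min (by positivity) (by positivity))
  have h3 : θ * (5 + c + ε) ≤ ε * c := by
    rwa [le_div_iff₀ h5] at h2
  have h4 : (c * r + θ) / (1 - θ) ≤ (c * r + θ) * (1 + 2 * θ) := by
    rw [div_le_iff₀ (by linarith)]
    have h6 : 1 ≤ (1 + 2 * θ) * (1 - θ) := by nlinarith
    have hpos : 0 < c * r + θ := by positivity
    nlinarith
  refine ⟨θ, h0, h1, by linarith, ?_⟩
  have h7 : θ * (c * r) ≤ θ * (c * (1 / 2)) :=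
    mul_le_mul_of_nonneg_left (mul_le_mul_of_nonneg_left hr hc.le) h0.le
  have h8 : θ * θ ≤ θ * (1 / 2) := mul_le_mul_of_nonneg_left h1 h0.le
  have h9 : θ * r ≤ θ * (1 / 2) := mul_le_mul_of_nonneg_left hr h0.le
  nlinarith

/-- the finite product is close to the infinite one -/
theorem small2 {a b s : ℝ} (ha : 0 < a) (hb : 0 < b) (hs : 0 < s) : ∃ e : ℝ, 0 < e ∧
    (a + e) * (b + e) ≤ a * b + s := by
  have h : 0 < a + b + 1 := by positivity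
  refine ⟨min 1 (s / (a + b + 1)), lt_min one_pos (by positivity), ?_⟩
  obtain ⟨e, he⟩ : ∃ e : ℝ, e = min 1 (s / (a + b + 1)) := ⟨_, rfl⟩
  rw [← he]
  have h1 : e ≤ 1 := by rw [he]; exact min_le_left _ _
  have h2 : e ≤ s / (a + b + 1) := by rw [he]; exact min_le_right _ _
  have h0 : 0 < e := by rw [he]; exact lt_min one_pos (by positivity)
  have h3 : e * (a + b + 1) ≤ s := by rwa [le_div_iff₀ h] at h2
  nlinarith

section mirror

variable {k : Type} [Field k] [NumberField k]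

omit [NumberField k] in
theorem mm_gmir (g : Q4 (𝓞 k)) : mm (gmir g) = mm g := by
  simp only [mm, dsc, gmir, Matrix.cons_val_zero, Matrix.cons_val_one, Matrix.cons_val]
  ring

theorem lrg_gmir (hka : HkaStmt) {N : Set {w : InfinitePlace k // IsReal w}} {δ : ℝ}
    {g : Q4 (𝓞 k)} (h : Lrg N δ g) (hm : mm g ≠ 0) : Lrg N δ (gmir g) := by
  refine ⟨?_, fun X Y hXY => ?_⟩
  · rw [mm_gmir]; exact h.sgn
  · rw [(hka k g hm).2.2.2.2.1 X Y]
    refine h.short (-X) Y ?_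
    rcases hXY with h' | h'
    · exact Or.inl (neg_ne_zero.2 h')
    · exact Or.inr h'

theorem nr_zero : nr (av (mixedEmbedding k ((0 : 𝓞 k) : k))) = 0 := by
  obtain ⟨v⟩ : Nonempty (InfinitePlace k) := inferInstance
  have h1 : av (mixedEmbedding k ((0 : 𝓞 k) : k)) v = 0 := by
    have e : mixedEmbedding k ((0 : 𝓞 k) : k) = 0 := by
      have e0 : ((0 : 𝓞 k) : k) = 0 := rfl
      rw [e0, map_zero]
    rw [e, av, ev]
    split_ifs <;> simp
  unfold nr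
  refine Finset.prod_eq_zero (Finset.mem_univ v) ?_
  rw [h1]
  exact zero_pow mult_ne_zero

end mirror

theorem cnt (low : LowStmt) (msq : MsqStmt) (mst : MstStmt) (upp : UppStmt)
    (den : Pool.Agent.LeoG.DenStmt) (inj : InjStmt) (exc : ExcStmt) (usq : UsqStmt)
    (pik : PikStmt) (con : ConStmt) (hka : HkaStmt) : CntStmt := by
  classical
  intro k _ _ Φ N
  obtain ⟨hD, hw, hcF, -, -, -⟩ := con k Φ
  obtain ⟨hMfin, ⟨AM, hAM, hAMle⟩, hMlow⟩ := msq k Φ N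
  obtain ⟨-, hPk, hDk, -, hPle, hPeps⟩ := pik k
  obtain ⟨n, hn⟩ : ∃ n : ℕ, n = finrank ℚ k := ⟨_, rfl⟩
  obtain ⟨u, hu⟩ : ∃ u : ℕ, u = un N := ⟨_, rfl⟩
  obtain ⟨q, hq⟩ : ∃ q : ℝ, q = (2 * Real.pi) ^ nrComplexPlaces k := ⟨_, rfl⟩
  have hq0 : 0 < q := by rw [hq]; positivity
  rw [← hn, ← hq] at hMlow
  rw [← hu]
  obtain ⟨r, hr⟩ : ∃ r : ℝ, r = 1 / (2 * 3 ^ u) := ⟨_, rfl⟩
  have hr0 : 0 < r := by rw [hr]; positivity
  have hr1 : r ≤ 1 / 2 := by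
    rw [hr]
    have h3 : (1 : ℝ) ≤ 3 ^ u := one_le_pow₀ (by norm_num)
    exact one_div_le_one_div_of_le (by norm_num) (by linarith)
  rw [← hr]
  obtain ⟨cM, hcM⟩ : ∃ cM : ℝ, cM = Dk k * (q * Φ.w) / (cov k * 2 ^ n) := ⟨_, rfl⟩
  have hcM0 : 0 < cM := by rw [hcM]; positivity
  rw [← hcM] at hMlow
  refine ⟨hMfin, ⟨cM / 2, by positivity, ?_⟩, ?_⟩
  · obtain ⟨Z₀, hZ₀⟩ := hMlow (cM / 2) (by positivity)
    filter_upwards [eventually_ge_atTop Z₀] with Z hZ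
    have := hZ₀ Z hZ
    have e : cM - cM / 2 = cM / 2 := by ring
    rwa [e] at this
  intro ε hε
  obtain ⟨θ, hθ0, hθ1, hθc, hθ⟩ := small hcM0 hε hr0 hr1
  -- small norms and short vectors
  obtain ⟨AE, hAE, hexc⟩ := exc k Φ N
  obtain ⟨AS, hAS, hmst⟩ := mst k Φ
  obtain ⟨η', hη'0, hη'1, hη'⟩ : ∃ η' : ℝ, 0 < η' ∧ η' ≤ 1 ∧ AM * η' ≤ θ := by
    refine ⟨min 1 (θ / AM), lt_min one_pos (by positivity), min_le_left _ _, ?_⟩
    calc AM * min 1 (θ / AM) ≤ AM * (θ / AM) :=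
          mul_le_mul_of_nonneg_left (min_le_right _ _) hAM.le
      _ = θ := by field_simp
  obtain ⟨δ, hδ0, hδ1, hδ⟩ : ∃ δ : ℝ, 0 < δ ∧ δ ≤ 1 ∧ AE * δ ≤ θ := by
    refine ⟨min 1 (θ / AE), lt_min one_pos (by positivity), min_le_left _ _, ?_⟩
    calc AE * min 1 (θ / AE) ≤ AE * (θ / AE) :=
          mul_le_mul_of_nonneg_left (min_le_right _ _) hAE.le
      _ = θ := by field_simp
  obtain ⟨T, η, hT, hη0, hη1, hlow⟩ := low k Φ N δ θ hδ0 hθ0
  rw [← hn] at hlow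
  obtain ⟨cL, hcL⟩ : ∃ cL : ℝ, cL = Pk k * (2 * Real.pi) ^ n * Φ.w * T / cov k ^ 2 := ⟨_, rfl⟩
  have hcL0 : 0 < cL := by rw [hcL]; positivity
  obtain ⟨K, hK⟩ : ∃ K : ℝ, K = Real.pi ^ n / 3 ^ u * q * T * Φ.w ^ 2 / cov k ^ 3 := ⟨_, rfl⟩
  have hK0 : 0 < K := by rw [hK]; positivity
  have hKc : Pk k * Dk k * K = 2 * cL * (cM * r) := by
    rw [hK, hcL, hcM, hr, mul_pow]
    field_simp
  rw [← hcL] at hlow
  -- the residue classes
  obtain ⟨e, he0, he⟩ := small2 hPk hDk (s := cL * θ / K) (by positivity)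
  obtain ⟨Q, hQ⟩ := hPeps e he0
  obtain ⟨hQ1, hQ2⟩ := hQ Q le_rfl
  obtain ⟨S, hS, hScard⟩ := den k Q
  have hdf : ∏ p ∈ Q, df p ≤ Pk k * Dk k + cL * θ / K := by
    have h1 : ∏ p ∈ Q, df p = (∏ p ∈ Q, (1 - 1 / np p ^ 2)) * ∏ p ∈ Q, dm p := by
      rw [← Finset.prod_mul_distrib]
      rfl
    rw [h1]
    refine le_trans (mul_le_mul hQ1 hQ2 ?_ ?_) he
    · exact hDk.le.trans (hPle Q).2
    · positivity
  have hN0 : (∏ p ∈ Q, p.asIdeal ^ 2 : Ideal (𝓞 k)) ≠ ⊥ := by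
    rw [← Ideal.zero_eq_bot]
    exact Finset.prod_ne_zero_iff.2 fun p _ => pow_ne_zero 2 p.ne_bot
  obtain ⟨η₂, hη₂⟩ : ∃ η₂ : ℝ, η₂ = min η η' := ⟨_, rfl⟩
  have hη₂0 : 0 < η₂ := by rw [hη₂]; exact lt_min hη0 hη'0
  obtain ⟨Z₁, hZ₁, hupp⟩ := upp k Φ N (∏ p ∈ Q, p.asIdeal ^ 2) hN0 S T η₂ (cL * θ) hT hη₂0
    (by rw [hη₂]; exact (min_le_left _ _).trans hη1) (by positivity)
  rw [← hn, ← hu, ← hq, ← hK] at hupp
  obtain ⟨Z₂, hZ₂⟩ := hMlow θ hθ0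
  filter_upwards [eventually_ge_atTop Z₁, eventually_ge_atTop Z₂,
    eventually_gt_atTop (1 / η')] with Z hZZ₁ hZZ₂ hZη
  have hZ1 : 1 ≤ Z := hZ₁.trans hZZ₁
  have hZ0 : 0 < Z := by linarith
  have hηZ : 1 < η' * Z := by
    rw [div_lt_iff₀ hη'0] at hZη
    linarith
  obtain ⟨hUfin, hUle⟩ := hupp Z hZZ₁
  -- the three sets
  obtain ⟨S1, hS1⟩ : ∃ S1 : Set (𝓞 k), S1 = Mset Φ N (η' * Z) := ⟨_, rfl⟩
  obtain ⟨S2, hS2⟩ : ∃ S2 : Set (𝓞 k), S2 = {m : 𝓞 k | Sgn N (mixedEmbedding k (m : k)) ∧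
      av (mixedEmbedding k (m : k)) ∈ Φ.F ∧ nr (av (mixedEmbedding k (m : k))) ≤ Z ∧
      ∃ (g : Q4 (𝓞 k)) (X Y : 𝓞 k), mm g = m ∧ GIrr g ∧ (X ≠ 0 ∨ Y ≠ 0) ∧
        nr (hk g X Y) < δ} := ⟨_, rfl⟩
  obtain ⟨S3, hS3⟩ : ∃ S3 : Set (𝓞 k), S3 = {m : 𝓞 k | m ∈ Mset Φ N Z ∧
      η' * Z ≤ nr (av (mixedEmbedding k (m : k))) ∧ ∃ g : Q4 (𝓞 k), mm g = m ∧
        GIrr g ∧ Lrg N δ g} := ⟨_, rfl⟩
  have f1 : S1.Finite := by rw [hS1]; exact hMfin _
  have f2 : S2.Finite := by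
    rw [hS2]
    exact (hmst Z hZ0).1.subset fun m hm => ⟨hm.2.1, hm.2.2.1⟩
  have f3 : S3.Finite := by
    rw [hS3]
    exact (hMfin Z).subset fun m hm => hm.1
  have hsub : {m | m ∈ Mset Φ N Z ∧ ((∃ x : k, x ^ 2 = 3 * (m : k)) ∨
        ∃ g : Q4 (𝓞 k), GIrr g ∧ mm g = m)} ⊆ S1 ∪ (S2 ∪ S3) := by
    rintro m ⟨hm, hor⟩
    by_cases hsmall : nr (av (mixedEmbedding k (m : k))) ≤ η' * Z
    · left
      rw [hS1]
      exact ⟨hm.1, hm.2.1, hsmall, hm.2.2.2.1, hm.2.2.2.2⟩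
    · right
      push Not at hsmall
      rcases hor with ⟨x, hx⟩ | ⟨g, hirr, hMm⟩
      · exfalso
        have h1 := (usq k m x hm.2.2.2.2).1 hx
        linarith
      · by_cases hsh : ∃ X Y : 𝓞 k, (X ≠ 0 ∨ Y ≠ 0) ∧ nr (hk g X Y) < δ
        · obtain ⟨X, Y, hXY, hlt⟩ := hsh
          left
          rw [hS2]
          exact ⟨hm.1, hm.2.1, hm.2.2.1, g, X, Y, hMm, hirr, hXY, hlt⟩
        · push Not at hsh
          right
          rw [hS3]
          refine ⟨hm, hsmall.le, g, hMm, hirr, ⟨?_, hsh⟩⟩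
          rw [hMm]
          exact hm.1
  have hcount := Set.ncard_le_ncard hsub (f1.union (f2.union f3))
  have hc1 : (S1.ncard : ℝ) ≤ θ * Z := by
    rw [hS1]
    refine (hAMle (η' * Z) (by positivity)).trans ?_
    rw [← mul_assoc]
    exact mul_le_mul_of_nonneg_right hη' hZ0.le
  have hc2 : (S2.ncard : ℝ) ≤ θ * Z := by
    rw [hS2]
    exact (hexc δ Z hδ0 hδ1 hZ1).trans (mul_le_mul_of_nonneg_right hδ hZ0.le)
  -- the main part
  obtain ⟨U, hU⟩ : ∃ U : Set (Q4 (𝓞 k)), U = {g : Q4 (𝓞 k) |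
      modQ (∏ p ∈ Q, p.asIdeal ^ 2) g ∈ S ∧ CReg Φ N (FD k) Z T g ∧
        (∀ v : InfinitePlace k, η₂ * v ((mm g : 𝓞 k) : k) ^ (1 / 4 : ℝ) ≤ v (g 0 : k)) ∧
        η₂ * Z ≤ nr (av (mixedEmbedding k ((mm g : 𝓞 k) : k)))} := ⟨_, rfl⟩
  rw [← hU] at hUfin hUle
  have hWU : ∀ m ∈ S3, Wset Φ T η m ⊆ U := by
    intro m hm w hw
    rw [hS3] at hm
    obtain ⟨hmM, hmη, -⟩ := hm
    obtain ⟨w1, w2, w3, w4, w5, w6⟩ := hw
    rw [hU]
    refine ⟨hS w fun p _ => ?_, ⟨w2, w3, ?_, ?_, w4, ?_, w5⟩, fun s => ?_, ?_⟩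
    · rw [w1]
      exact hmM.2.2.2.2 p
    · rw [w1]
      exact hmM.1
    · rw [w1]
      exact hmM.2.1
    · rw [w1]
      exact hmM.2.2.1
    · refine le_trans (mul_le_mul_of_nonneg_right ?_ ?_) (w6 s)
      · rw [hη₂]; exact min_le_left _ _
      · exact Real.rpow_nonneg (apply_nonneg s _) _
    · rw [w1]
      refine le_trans (mul_le_mul_of_nonneg_right ?_ hZ0.le) hmη
      rw [hη₂]; exact min_le_right _ _
  have hWbig : ∀ m ∈ S3, 2 * ((1 - θ) * cL) ≤ ((Wset Φ T η m).ncard : ℝ) := by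
    intro m hm
    have hWf : (Wset Φ T η m).Finite := hUfin.subset (hWU m hm)
    have hm' := hm
    rw [hS3] at hm'
    obtain ⟨hmM, hmη, g, hvm, hirr, hlrg⟩ := hm'
    have hm0 : mm g ≠ 0 := by
      rw [hvm]
      intro h0
      rw [h0, nr_zero] at hmη
      linarith
    obtain ⟨-, h1⟩ := hlow g hlrg
    obtain ⟨-, h2⟩ := hlow (gmir g) (lrg_gmir hka hlrg hm0)
    have hsq : ∀ x : k, x ^ 2 ≠ -((mm g : 𝓞 k) : k) := by
      intro x
      rw [hvm]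
      exact (usq k m x hmM.2.2.2.2).2
    have h3 := inj k Φ T η g hirr hsq (by rw [hvm]; exact hWf)
    rw [hvm] at h3
    have h4 : ((Mks Φ T η g).ncard : ℝ) + ((Mks Φ T η (gmir g)).ncard : ℝ) ≤
        ((Wset Φ T η m).ncard : ℝ) := by exact_mod_cast h3
    linarith
  have hc3' : (S3.ncard : ℝ) * (2 * ((1 - θ) * cL)) ≤ (U.ncard : ℝ) := by
    rw [Set.ncard_eq_toFinset_card U hUfin, Set.ncard_eq_toFinset_card S3 f3]
    have h1 : (∑ m ∈ f3.toFinset, (((hUfin.toFinset.filter fun w => mm w = m).card : ℕ) : ℝ)) ≤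
        (hUfin.toFinset.card : ℝ) := by
      have h2 : (hUfin.toFinset.filter fun w => mm w ∈ f3.toFinset).card =
          ∑ m ∈ f3.toFinset, ((hUfin.toFinset.filter fun w => mm w ∈ f3.toFinset).filter
            fun w => mm w = m).card :=
        Finset.card_eq_sum_card_fiberwise fun w hw => (Finset.mem_filter.1 hw).2
      have h3 : (hUfin.toFinset.filter fun w => mm w ∈ f3.toFinset).card ≤
        hUfin.toFinset.card := Finset.card_filter_le _ _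
      have h4 : ∀ m ∈ f3.toFinset, (hUfin.toFinset.filter fun w => mm w = m).card =
          ((hUfin.toFinset.filter fun w => mm w ∈ f3.toFinset).filter fun w => mm w = m).card := by
        intro m hm
        rw [Finset.filter_filter]
        congr 1
        ext w
        simp only [Finset.mem_filter]
        constructor
        · rintro ⟨a, b⟩
          exact ⟨a, by rw [b]; exact hm, b⟩
        · rintro ⟨a, -, b⟩
          exact ⟨a, b⟩
      rw [← Nat.cast_sum, Finset.sum_congr rfl h4, ← h2]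
      exact_mod_cast h3
    refine le_trans ?_ h1
    rw [← nsmul_eq_mul, ← Finset.sum_const]
    refine Finset.sum_le_sum fun m hm => ?_
    have hm' : m ∈ S3 := by simpa using hm
    refine (hWbig m hm').trans ?_
    have hWf : (Wset Φ T η m).Finite := hUfin.subset (hWU m hm')
    rw [Set.ncard_eq_toFinset_card _ hWf]
    have : hWf.toFinset ⊆ hUfin.toFinset.filter fun w => mm w = m := by
      intro w hw
      rw [Set.Finite.mem_toFinset] at hw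
      rw [Finset.mem_filter, Set.Finite.mem_toFinset]
      exact ⟨hWU m hm' hw, hw.1⟩
    exact_mod_cast Finset.card_le_card this
  have hUb : (U.ncard : ℝ) ≤ 2 * cL * (cM * r + θ) * Z := by
    refine hUle.trans (mul_le_mul_of_nonneg_right ?_ hZ0.le)
    have h1 : (S.ncard : ℝ) / (Ideal.absNorm (∏ p ∈ Q, p.asIdeal ^ 2) : ℝ) ^ 4 * K ≤
        (Pk k * Dk k + cL * θ / K) * K :=
      mul_le_mul_of_nonneg_right (hScard.trans hdf) hK0.le
    have h2 : (Pk k * Dk k + cL * θ / K) * K = 2 * cL * (cM * r) + cL * θ := by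
      rw [add_mul, hKc, div_mul_cancel₀ _ hK0.ne']
    rw [h2] at h1
    linarith
  have hc3 : (S3.ncard : ℝ) ≤ (cM * r + θ) / (1 - θ) * Z := by
    have h1 : (S3.ncard : ℝ) * (2 * ((1 - θ) * cL)) ≤ 2 * cL * (cM * r + θ) * Z :=
      hc3'.trans hUb
    have h2 : 0 < 1 - θ := by linarith
    rw [div_mul_eq_mul_div, le_div_iff₀ h2]
    have h3 : (S3.ncard : ℝ) * (1 - θ) * (2 * cL) ≤ (cM * r + θ) * Z * (2 * cL) := by
      linarith
    exact le_of_mul_le_mul_right h3 (by positivity)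
  have hun : ((S1 ∪ (S2 ∪ S3)).ncard : ℝ) ≤ S1.ncard + (S2.ncard + S3.ncard) := by
    have h1 := Set.ncard_union_le S1 (S2 ∪ S3)
    have h2 := Set.ncard_union_le S2 S3
    have h3 : (S1 ∪ (S2 ∪ S3)).ncard ≤ S1.ncard + (S2.ncard + S3.ncard) := by omega
    exact_mod_cast h3
  have hM := hZ₂ Z hZZ₂
  have hcount' : (({m | m ∈ Mset Φ N Z ∧ ((∃ x : k, x ^ 2 = 3 * (m : k)) ∨
        ∃ g : Q4 (𝓞 k), GIrr g ∧ mm g = m)}.ncard : ℕ) : ℝ) ≤
      ((S1 ∪ (S2 ∪ S3)).ncard : ℝ) := by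
    exact_mod_cast hcount
  refine hcount'.trans (hun.trans ?_)
  have hfin1 : (S1.ncard : ℝ) + (S2.ncard + S3.ncard) ≤
      (2 * θ + (cM * r + θ) / (1 - θ)) * Z := by linarith
  refine hfin1.trans ?_
  refine (mul_le_mul_of_nonneg_right hθ hZ0.le).trans ?_
  rw [mul_assoc]
  exact mul_le_mul_of_nonneg_left hM (by positivity)

end Pool.Agent.LeoC.H89
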