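import Mathlib
import Pool.Agent.LeoC.CountStmts

/-!
# Squad LEOC, module LWA: the good vectors of a form which are primitive at the primes of a finite
set (port of Helper76_LeoK.Lwa)
-/

set_option autoImplicit false

open NumberField NumberField.InfinitePlace NumberField.mixedEmbedding IsDedekindDomain Module
  MeasureTheory Filter Topology
open Pool.Agent.LeoK Pool.Agent.LeoG Pool.Agent.LeoC

open scoped Classical

namespace Pool.Agent.LeoC.H89

section lwa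

variable {k : Type} [Field k]

/-- the vector of a pair -/
noncomputable def pr (X Y : 𝓞 k) : MS k × MS k :=
  (mixedEmbedding k (X : k), mixedEmbedding k (Y : k))

theorem pr_add (X Y X' Y' : 𝓞 k) : pr (X + X') (Y + Y') = pr X Y + pr X' Y' := by
  simp only [pr, map_add, Prod.mk_add_mk]

theorem pr_zsmul (n : ℤ) (X Y : 𝓞 k) : pr (n • X) (n • Y) = n • pr X Y := by
  simp only [pr, map_zsmul, Prod.smul_mk]

theorem wz_smul (t : ℝ) (w : WS k) : wz (t • w) = t ^ 2 • wz w := by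
  funext v
  simp only [wz, Pi.smul_apply, smul_eq_mul, Prod.smul_fst, Prod.smul_snd]
  split_ifs with h
  · rw [_root_.norm_smul, mul_pow, Real.norm_eq_abs, sq_abs]
  · rw [_root_.norm_smul, _root_.norm_smul, mul_pow, mul_pow, Real.norm_eq_abs, sq_abs]
    ring

theorem wz_nonneg (w : WS k) (v : InfinitePlace k) : 0 ≤ wz w v := by
  rw [wz]
  split_ifs <;> positivity

theorem c3_nonneg (N : Set {w : InfinitePlace k // IsReal w}) (w : WS k)
    (v : {w : InfinitePlace k // IsReal w}) : 0 ≤ c3 N w v := by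
  rw [c3]
  split_ifs <;> positivity

theorem c3_smul (N : Set {w : InfinitePlace k // IsReal w}) (t : ℝ) (ht : 0 ≤ t) (w : WS k)
    (v : {w : InfinitePlace k // IsReal w}) : c3 N (t • w) v = t ^ 3 * c3 N w v := by
  simp only [c3, Prod.smul_fst, Pi.smul_apply]
  split_ifs
  · rw [Complex.real_smul, mul_pow, ← Complex.ofReal_pow, Complex.im_ofReal_mul, abs_mul,
      abs_of_nonneg (by positivity)]
  · rw [Complex.real_smul, Complex.re_ofReal_mul, Complex.im_ofReal_mul, mul_pow, mul_pow,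
      ← mul_add, abs_mul, abs_of_nonneg (by positivity)]

theorem cc_smul (t : ℝ) (ht : 0 ≤ t) (w : WS k) (v : {w : InfinitePlace k // IsComplex w}) :
    ‖((t • w).2 v).1 ^ 3 + ((t • w).2 v).2 ^ 3‖ = t ^ 3 * ‖(w.2 v).1 ^ 3 + (w.2 v).2 ^ 3‖ := by
  simp only [Prod.smul_snd, Pi.smul_apply, Prod.smul_fst]
  rw [Complex.real_smul, Complex.real_smul, mul_pow, mul_pow, ← mul_add, norm_mul, norm_pow,
    Complex.norm_real, Real.norm_of_nonneg ht]

variable [NumberField k]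

theorem wz_le (w : WS k) (v : InfinitePlace k) : wz w v ≤ 2 * ‖w‖ ^ 2 := by
  have h1 : ‖w.1‖ ≤ ‖w‖ := norm_fst_le w
  have h2 : ‖w.2‖ ≤ ‖w‖ := norm_snd_le w
  rw [wz]
  split_ifs with h
  · have h3 := (norm_le_pi_norm w.1 ⟨v, h⟩).trans h1
    have h4 := pow_le_pow_left₀ (norm_nonneg _) h3 2
    have h5 : 0 ≤ ‖w‖ ^ 2 := by positivity
    linarith
  · have h3 := (norm_le_pi_norm w.2 ⟨v, not_isReal_iff_isComplex.mp h⟩).trans h2
    have h4 := (norm_fst_le (w.2 ⟨v, not_isReal_iff_isComplex.mp h⟩)).trans h3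
    have h5 := (norm_snd_le (w.2 ⟨v, not_isReal_iff_isComplex.mp h⟩)).trans h3
    have h6 := pow_le_pow_left₀ (norm_nonneg _) h4 2
    have h7 := pow_le_pow_left₀ (norm_nonneg _) h5 2
    linarith

theorem nr_wz_le (w : WS k) : nr (wz w) ≤ (2 * ‖w‖ ^ 2) ^ finrank ℚ k := by
  rw [← sum_mult_eq, ← Finset.prod_pow_eq_pow_sum]
  exact Finset.prod_le_prod (fun v _ => pow_nonneg (wz_nonneg w v) _)
    (fun v _ => pow_le_pow_left₀ (wz_nonneg w v) (wz_le w v) _)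

/-- no short vectors -/
theorem norm_low {δ : ℝ} (hδ : 0 < δ) (w : WS k) (h : δ ≤ nr (wz w)) : min 1 δ / 2 ≤ ‖w‖ := by
  by_contra hc
  push Not at hc
  have h0 : 0 ≤ ‖w‖ := norm_nonneg w
  have h1 : ‖w‖ < 1 / 2 := hc.trans_le (by
    have := min_le_left 1 δ
    linarith)
  have h2 : ‖w‖ < δ := hc.trans_le (by
    have := min_le_right 1 δ
    linarith)
  have h3 : 2 * ‖w‖ ^ 2 ≤ ‖w‖ := by nlinarith
  have h4 := nr_wz_le w
  have h5 : (2 * ‖w‖ ^ 2) ^ finrank ℚ k ≤ 2 * ‖w‖ ^ 2 :=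
    pow_le_of_le_one (by positivity) (by linarith) (finrank_pos).ne'
  linarith

omit [NumberField k] in
/-- the lattice -/
theorem span_pr {κ : Type} (I : Ideal (𝓞 k)) (B' : Basis κ ℝ (MS k))
    (hB' : ∀ y : MS k, y ∈ Submodule.span ℤ (Set.range B') ↔ ∃ x ∈ I, y = mixedEmbedding k (x : k))
    (L : (MS k × MS k) ≃ₗ[ℝ] WS k) (y : WS k)
    (hy : y ∈ Submodule.span ℤ (Set.range ((B'.prod B').map L))) :
    ∃ X ∈ I, ∃ Y ∈ I, y = L (pr X Y) := by
  induction hy using Submodule.span_induction with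
  | mem x hx =>
    obtain ⟨i, rfl⟩ := hx
    rcases i with i | i
    · obtain ⟨x, hx, hxe⟩ := (hB' (B' i)).1 (Submodule.subset_span ⟨i, rfl⟩)
      refine ⟨x, hx, 0, I.zero_mem, ?_⟩
      have e0 : ((0 : 𝓞 k) : k) = 0 := rfl
      have e : (B'.prod B') (Sum.inl i) = pr x 0 := by
        apply Prod.ext
        · rw [Basis.prod_apply_inl_fst, hxe, pr]
        · rw [Basis.prod_apply_inl_snd, pr, e0, map_zero]
      rw [Basis.map_apply, e]
    · obtain ⟨x, hx, hxe⟩ := (hB' (B' i)).1 (Submodule.subset_span ⟨i, rfl⟩)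
      refine ⟨0, I.zero_mem, x, hx, ?_⟩
      have e0 : ((0 : 𝓞 k) : k) = 0 := rfl
      have e : (B'.prod B') (Sum.inr i) = pr 0 x := by
        apply Prod.ext
        · rw [Basis.prod_apply_inr_fst, pr, e0, map_zero]
        · rw [Basis.prod_apply_inr_snd, hxe, pr]
      rw [Basis.map_apply, e]
  | zero =>
    refine ⟨0, I.zero_mem, 0, I.zero_mem, ?_⟩
    have e0 : ((0 : 𝓞 k) : k) = 0 := rfl
    have e : (pr 0 0 : MS k × MS k) = 0 := by
      rw [pr, e0, map_zero]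
      rfl
    rw [e, map_zero]
  | add x y _ _ hx hy =>
    obtain ⟨X, hX, Y, hY, rfl⟩ := hx
    obtain ⟨X', hX', Y', hY', rfl⟩ := hy
    exact ⟨X + X', I.add_mem hX hX', Y + Y', I.add_mem hY hY', by rw [pr_add, map_add]⟩
  | smul n x _ hx =>
    obtain ⟨X, hX, Y, hY, rfl⟩ := hx
    exact ⟨n • X, zsmul_mem hX n, n • Y, zsmul_mem hY n, by rw [pr_zsmul, map_zsmul]⟩

/-- the volume of the fundamental domain -/
theorem vol_fd {κ : Type} [Fintype κ] (B' : Basis κ ℝ (MS k)) (L : (MS k × MS k) ≃L[ℝ] WS k)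
    (hL : ∀ S : Set (MS k × MS k),
      volume (L '' S) = ENNReal.ofReal ((1 / 2) ^ finrank ℚ k) * volume S) :
    (volume (ZSpan.fundamentalDomain ((B'.prod B').map L.toLinearEquiv))).toReal =
      (volume (ZSpan.fundamentalDomain B')).toReal ^ 2 / 2 ^ finrank ℚ k := by
  have h1 : ZSpan.fundamentalDomain (B'.prod B') =
      ZSpan.fundamentalDomain B' ×ˢ ZSpan.fundamentalDomain B' := by
    ext x
    rw [Set.mem_prod, ZSpan.mem_fundamentalDomain, ZSpan.mem_fundamentalDomain,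
      ZSpan.mem_fundamentalDomain]
    constructor
    · intro h
      refine ⟨fun i => ?_, fun i => ?_⟩
      · have := h (Sum.inl i)
        rwa [Basis.prod_repr_inl] at this
      · have := h (Sum.inr i)
        rwa [Basis.prod_repr_inr] at this
    · rintro ⟨h, h'⟩ (i | i)
      · rw [Basis.prod_repr_inl]
        exact h i
      · rw [Basis.prod_repr_inr]
        exact h' i
  rw [← ZSpan.map_fundamentalDomain]
  have h2 : (L.toLinearEquiv '' ZSpan.fundamentalDomain (B'.prod B')) =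
      L '' ZSpan.fundamentalDomain (B'.prod B') := rfl
  rw [h2, hL, h1, Measure.volume_eq_prod, Measure.prod_prod, ENNReal.toReal_mul,
    ENNReal.toReal_mul, ENNReal.toReal_ofReal (by positivity), one_div, inv_pow]
  ring

/-- the region -/
theorem region (Φ : CFrame k) (N : Set {w : InfinitePlace k // IsReal w}) (g : Q4 (𝓞 k))
    (hnr : ∀ x : PS k, ∀ t : ℝ, nr (t • x) = t ^ finrank ℚ k * nr x)
    (X Y : 𝓞 k) (w : WS k) (hw0 : wz w = hk g X Y)
    (hw1 : ∀ v : {w : InfinitePlace k // IsReal w},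
      v.1 ((mm g : 𝓞 k) : k) ^ (1 / 4 : ℝ) * c3 N w v ≤ 2 * v.1 ((gval g X Y : 𝓞 k) : k))
    (hw2 : ∀ v : {w : InfinitePlace k // IsComplex w},
      v.1 ((mm g : 𝓞 k) : k) ^ (1 / 4 : ℝ) * ‖(w.2 v).1 ^ 3 + (w.2 v).2 ^ 3‖ ≤
        2 * v.1 ((gval g X Y : 𝓞 k) : k))
    (t η : ℝ) (ht : 1 ≤ t) (hw : t⁻¹ • w ∈ DD Φ N η) :
    hk g X Y ∈ Φ.F ∧ nr (hk g X Y) ≤ t ^ (2 * finrank ℚ k) ∧
      ∀ v : InfinitePlace k, η / 2 * v ((mm g : 𝓞 k) : k) ^ (1 / 4 : ℝ) ≤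
        v ((gval g X Y : 𝓞 k) : k) := by
  have ht0 : 0 < t := by linarith
  obtain ⟨h1, h2, h3⟩ := hw
  obtain ⟨hF, hP⟩ := interior_subset h1
  have hval : hk g X Y = t ^ 2 • wz (t⁻¹ • w) := by
    rw [wz_smul, ← hw0, smul_smul, ← mul_pow, mul_inv_cancel₀ ht0.ne', one_pow, one_smul]
  have h4 : (t⁻¹) ^ 3 ≤ 1 := pow_le_one₀ (by positivity) (inv_le_one_of_one_le₀ ht)
  refine ⟨?_, ?_, fun v => ?_⟩
  · rw [hval]
    exact Φ.scal _ hF (t ^ 2) (by positivity)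
  · rw [hval, hnr, ← pow_mul]
    have h5 : nr (wz (t⁻¹ • w)) ≤ 1 := hP
    calc t ^ (2 * finrank ℚ k) * nr (wz (t⁻¹ • w))
        ≤ t ^ (2 * finrank ℚ k) * 1 := mul_le_mul_of_nonneg_left h5 (by positivity)
      _ = _ := mul_one _
  · have hM : 0 ≤ v ((mm g : 𝓞 k) : k) ^ (1 / 4 : ℝ) := Real.rpow_nonneg (apply_nonneg v _) _
    rcases isReal_or_isComplex v with hv | hv
    · have h5 := h2 ⟨v, hv⟩
      rw [c3_smul N _ (by positivity)] at h5
      have h6 : (t⁻¹) ^ 3 * c3 N w ⟨v, hv⟩ ≤ c3 N w ⟨v, hv⟩ :=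
        mul_le_of_le_one_left (c3_nonneg _ _ _) h4
      have h7 := hw1 ⟨v, hv⟩
      have h8 : v ((mm g : 𝓞 k) : k) ^ (1 / 4 : ℝ) * η ≤
          v ((mm g : 𝓞 k) : k) ^ (1 / 4 : ℝ) * c3 N w ⟨v, hv⟩ :=
        mul_le_mul_of_nonneg_left (h5.le.trans h6) hM
      have h9 := h8.trans h7
      simp only at h9
      linarith
    · have h5 := h3 ⟨v, hv⟩
      rw [cc_smul _ (by positivity)] at h5
      have h6 : (t⁻¹) ^ 3 * ‖(w.2 ⟨v, hv⟩).1 ^ 3 + (w.2 ⟨v, hv⟩).2 ^ 3‖ ≤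
          ‖(w.2 ⟨v, hv⟩).1 ^ 3 + (w.2 ⟨v, hv⟩).2 ^ 3‖ :=
        mul_le_of_le_one_left (norm_nonneg _) h4
      have h7 := hw2 ⟨v, hv⟩
      have h8 : v ((mm g : 𝓞 k) : k) ^ (1 / 4 : ℝ) * η ≤
          v ((mm g : 𝓞 k) : k) ^ (1 / 4 : ℝ) * ‖(w.2 ⟨v, hv⟩).1 ^ 3 + (w.2 ⟨v, hv⟩).2 ^ 3‖ :=
        mul_le_mul_of_nonneg_left (h5.le.trans h6) hM
      have h9 := h8.trans h7
      simp only at h9
      linarith

/-- elements of a bounded set -/
theorem fin_of_bdd (R : ℝ) : {X : 𝓞 k | ‖mixedEmbedding k (X : k)‖ ≤ R}.Finite := by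
  refine Set.Finite.subset (Set.Finite.preimage (f := fun X : 𝓞 k => (X : k))
    (Function.Injective.injOn RingOfIntegers.coe_injective)
    (Embeddings.finite_of_norm_le k ℂ R)) ?_
  intro X hX
  refine ⟨X.isIntegral_coe, fun φ => ?_⟩
  have h1 : ‖φ (X : k)‖ = normAtPlace (InfinitePlace.mk φ) (mixedEmbedding k (X : k)) := by
    rw [normAtPlace_apply]
    rfl
  have h2 : ‖mixedEmbedding k (X : k)‖ =
      Finset.univ.sup' Finset.univ_nonempty fun w => normAtPlace w (mixedEmbedding k (X : k)) :=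
    norm_eq_sup'_normAtPlace _
  rw [h1]
  refine le_trans ?_ hX
  rw [h2]
  exact Finset.le_sup' (fun w => normAtPlace w (mixedEmbedding k (X : k)))
    (Finset.mem_univ (InfinitePlace.mk φ))

theorem haar_cc : (volume : Measure (ℂ × ℂ)).IsAddHaarMeasure :=
  Measure.prod.instIsAddHaarMeasure volume volume

theorem haar_pi : (volume :
    Measure ({w : InfinitePlace k // IsComplex w} → ℂ × ℂ)).IsAddHaarMeasure := by
  have h := haar_cc
  exact Measure.pi.isAddHaarMeasure _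

theorem haar_ws : (volume : Measure (WS k)).IsAddHaarMeasure := by
  have h := haar_pi (k := k)
  exact Measure.prod.instIsAddHaarMeasure volume volume

theorem prod_nonneg' (Q : Finset (HeightOneSpectrum (𝓞 k))) :
    0 ≤ ∏ p ∈ Q, (1 - 1 / np p ^ 2) := by
  refine Finset.prod_nonneg (fun p _ => ?_)
  unfold np
  rcases Nat.eq_zero_or_pos (Ideal.absNorm p.asIdeal) with h | h
  · rw [h]
    simp
  · have h1 : (1 : ℝ) ≤ (Ideal.absNorm p.asIdeal : ℝ) ^ 2 := by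
      have : (1 : ℝ) ≤ (Ideal.absNorm p.asIdeal : ℝ) := by exact_mod_cast h
      nlinarith
    rw [sub_nonneg, div_le_one (by linarith)]
    exact h1

/-- the final inequality -/
theorem final_ineq (P D A vF vol ε T s : ℝ) (n : ℕ) (hP : 0 ≤ P) (hD : 0 < D) (hA : 0 < A)
    (hT : 0 < T) (hvol : Real.pi ^ n * vF - ε / 2 ^ (n + 1) ≤ vol) (hs : P * A ^ 2 ≤ s) (g : ℝ)
    (hg0 : 0 ≤ g)
    (hg : s * ((vol - ε / 2 ^ (n + 1)) * T / ((D * A) ^ 2 / 2 ^ n)) ≤ g) :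
    P * ((2 * Real.pi) ^ n * vF - ε) * T / D ^ 2 ≤ g := by
  have h2n : (0 : ℝ) < 2 ^ n := by positivity
  have h1 : (2 * Real.pi) ^ n * vF - ε ≤ 2 ^ n * (vol - ε / 2 ^ (n + 1)) := by
    have e1 : 2 ^ n * (Real.pi ^ n * vF - ε / 2 ^ (n + 1)) ≤ 2 ^ n * vol :=
      mul_le_mul_of_nonneg_left hvol h2n.le
    have e2 : (2 : ℝ) ^ n * (ε / 2 ^ (n + 1)) = ε / 2 := by
      rw [pow_succ]
      field_simp
    rw [mul_sub, e2] at e1
    rw [mul_sub, e2, mul_pow]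
    linarith
  by_cases hk : (2 * Real.pi) ^ n * vF - ε ≤ 0
  · refine le_trans ?_ hg0
    refine div_nonpos_of_nonpos_of_nonneg ?_ (by positivity)
    exact mul_nonpos_of_nonpos_of_nonneg (mul_nonpos_of_nonneg_of_nonpos hP hk) hT.le
  · push Not at hk
    have hw : 0 < vol - ε / 2 ^ (n + 1) := by
      have : 0 < 2 ^ n * (vol - ε / 2 ^ (n + 1)) := hk.trans_le h1
      exact (mul_pos_iff_of_pos_left h2n).1 this
    refine le_trans ?_ hg
    calc P * ((2 * Real.pi) ^ n * vF - ε) * T / D ^ 2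
        ≤ P * (2 ^ n * (vol - ε / 2 ^ (n + 1))) * T / D ^ 2 := by
          refine div_le_div_of_nonneg_right ?_ (by positivity)
          refine mul_le_mul_of_nonneg_right ?_ hT.le
          exact mul_le_mul_of_nonneg_left h1 hP
      _ = (P * A ^ 2) * ((vol - ε / 2 ^ (n + 1)) * T / ((D * A) ^ 2 / 2 ^ n)) := by
          field_simp
      _ ≤ s * ((vol - ε / 2 ^ (n + 1)) * T / ((D * A) ^ 2 / 2 ^ n)) := by
          refine mul_le_mul_of_nonneg_right hs ?_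
          positivity

theorem prc_ex (hprc : PrcStmt) (Q : Finset (HeightOneSpectrum (𝓞 k))) :
    ∃ N : Ideal (𝓞 k), N ≠ ⊥ ∧ ∃ S : Set ((𝓞 k ⧸ N) × (𝓞 k ⧸ N)),
      (∀ X Y : 𝓞 k, (Ideal.Quotient.mk N X, Ideal.Quotient.mk N Y) ∈ S →
        ∀ p ∈ Q, ¬ (X ∈ p.asIdeal ∧ Y ∈ p.asIdeal)) ∧
      (∏ p ∈ Q, (1 - 1 / np p ^ 2)) * (Ideal.absNorm N : ℝ) ^ 2 ≤ (S.ncard : ℝ) :=
  ⟨∏ p ∈ Q, p.asIdeal, Finset.prod_ne_zero_iff.2 (fun p _ => p.ne_bot), hprc k Q⟩

/-- finiteness of the set of the marks -/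
theorem fin_marks (Φ : CFrame k) (g : Q4 (𝓞 k)) (L : (MS k × MS k) ≃L[ℝ] WS k)
    (hL : ∀ X Y : 𝓞 k, wz (L (pr X Y)) = hk g X Y) (T : ℝ)
    (hb : Bornology.IsBounded (Φ.F ∩ {x | nr x ≤ T})) :
    {p : 𝓞 k × 𝓞 k | hk g p.1 p.2 ∈ Φ.F ∧ nr (hk g p.1 p.2) ≤ T}.Finite := by
  obtain ⟨R, hR⟩ := hb.exists_norm_le
  obtain ⟨C, hC⟩ : ∃ C : ℝ, C = ‖(L.symm : WS k →L[ℝ] MS k × MS k)‖ * (|R| + 1) := ⟨_, rfl⟩
  refine Set.Finite.subset (Set.Finite.prod (fin_of_bdd C) (fin_of_bdd C)) ?_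
  rintro ⟨X, Y⟩ hp
  have h1 := hR _ hp
  have h2 : ‖L (pr X Y)‖ ≤ |R| + 1 := by
    have h3 : ∀ v, wz (L (pr X Y)) v ≤ |R| := by
      intro v
      rw [hL]
      refine le_trans ?_ (h1.trans (le_abs_self R))
      exact (le_abs_self _).trans (norm_le_pi_norm (hk g X Y) v)
    have h4 : ∀ x : ℝ, 0 ≤ x → x ^ 2 ≤ |R| → x ≤ |R| + 1 := by
      intro x hx hxR
      nlinarith [abs_nonneg R]
    rw [Prod.norm_def, max_le_iff]
    constructor
    · refine (pi_norm_le_iff_of_nonneg (by positivity)).2 fun v => ?_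
      have h5 := h3 v.1
      rw [wz, dif_pos v.2] at h5
      exact h4 _ (norm_nonneg _) h5
    · refine (pi_norm_le_iff_of_nonneg (by positivity)).2 fun v => ?_
      have h5 := h3 v.1
      rw [wz, dif_neg (not_isReal_iff_isComplex.mpr v.2)] at h5
      rw [Prod.norm_def, max_le_iff]
      constructor
      · exact h4 _ (norm_nonneg _) (by
          have := sq_nonneg ‖((L (pr X Y)).2 v).2‖
          linarith)
      · exact h4 _ (norm_nonneg _) (by
          have := sq_nonneg ‖((L (pr X Y)).2 v).1‖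
          linarith)
  have h6 : ‖pr X Y‖ ≤ C := by
    have h7 : pr X Y = (L.symm : WS k →L[ℝ] MS k × MS k) (L (pr X Y)) :=
      (L.symm_apply_apply _).symm
    rw [h7, hC]
    refine (ContinuousLinearMap.le_opNorm _ _).trans ?_
    exact mul_le_mul_of_nonneg_left h2 (norm_nonneg _)
  exact ⟨(norm_fst_le (pr X Y)).trans h6, (norm_snd_le (pr X Y)).trans h6⟩

end lwa

theorem lwa (hmap : MapStmt) (hvod : VodStmt) (hcov : CovStmt) (hltl : LtlStmt) (hprc : PrcStmt)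
    (hcon : ConStmt) : LwaStmt := by
  classical
  intro k _ _ Φ N ε hε
  obtain ⟨hD, hvF, -, -, hnr, hbd⟩ := hcon k Φ
  have hn : 0 < finrank ℚ k := finrank_pos
  obtain ⟨n, hnn⟩ : ∃ n, n = finrank ℚ k := ⟨_, rfl⟩
  obtain ⟨η, hη, hopen, hbdd, hvol⟩ := hvod k Φ N (ε / 2 ^ (n + 1)) (by positivity)
  rw [← hnn] at hvol hn ⊢
  refine ⟨η / 2, by positivity, fun δ Q hδ => ?_⟩
  obtain ⟨I, hI, S, hS1, hS2⟩ := prc_ex hprc Q
  obtain ⟨κ, _, B', hB', hvolB⟩ := hcov k I hI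
  have hδ2 : 0 < min 1 δ / 2 := by
    have := lt_min one_pos hδ
    linarith
  have haar := haar_ws (k := k)
  obtain ⟨t0, ht0, hltl'⟩ := hltl (WS k) volume (κ ⊕ κ) (DD Φ N η) hopen hbdd (min 1 δ / 2)
    ((cov k * (Ideal.absNorm I : ℝ)) ^ 2 / 2 ^ n) (ε / 2 ^ (n + 1)) hδ2 (by positivity)
  refine ⟨max 1 (t0 ^ (2 * n)), by positivity, fun T hT g hg => ?_⟩
  have hT1 : 1 ≤ T := (le_max_left _ _).trans hT
  have hT0 : 0 < T := by linarith
  obtain ⟨t, htdef⟩ : ∃ t : ℝ, t = T ^ (((2 * n : ℕ) : ℝ)⁻¹) := ⟨_, rfl⟩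
  have htT : t ^ (2 * n) = T := by
    rw [htdef]
    exact Real.rpow_inv_natCast_pow hT0.le (by omega)
  have htpos : 0 < t := by
    rw [htdef]
    exact Real.rpow_pos_of_pos hT0 _
  have ht1 : 1 ≤ t := by
    by_contra hc
    push Not at hc
    have := pow_lt_one₀ htpos.le hc (show 2 * n ≠ 0 by omega)
    linarith
  have htt0 : t0 ≤ t := by
    have h1 : t0 ^ (2 * n) ≤ t ^ (2 * n) := by
      rw [htT]
      exact (le_max_right _ _).trans hT
    exact le_of_pow_le_pow_left₀ (by omega) htpos.le h1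
  obtain ⟨L, hLvol, hL⟩ := hmap k N g hg.sgn
  have hLw : ∀ X Y : 𝓞 k, wz (L (pr X Y)) = hk g X Y := fun X Y => (hL X Y).1
  obtain ⟨b, hb⟩ : ∃ b : Basis (κ ⊕ κ) ℝ (WS k), b = (B'.prod B').map L.toLinearEquiv := ⟨_, rfl⟩
  have hbvol : (volume (ZSpan.fundamentalDomain b)).toReal =
      (cov k * (Ideal.absNorm I : ℝ)) ^ 2 / 2 ^ n := by
    rw [hb, vol_fd B' L hLvol, hvolB, hnn]
  have hspan : ∀ y ∈ Submodule.span ℤ (Set.range b), ∃ X ∈ I, ∃ Y ∈ I, y = L (pr X Y) := by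
    intro y hy
    rw [hb] at hy
    exact span_pr I B' hB' L.toLinearEquiv y hy
  have hshort : ∀ y ∈ Submodule.span ℤ (Set.range b), y ≠ 0 → min 1 δ / 2 ≤ ‖y‖ := by
    intro y hy hy0
    obtain ⟨X, _, Y, _, rfl⟩ := hspan y hy
    refine norm_low hδ _ ?_
    rw [hLw]
    refine hg.short X Y ?_
    by_contra hc
    push Not at hc
    apply hy0
    have e0 : ((0 : 𝓞 k) : k) = 0 := rfl
    have e : (pr 0 0 : MS k × MS k) = 0 := by
      rw [pr, e0, map_zero]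
      rfl
    rw [hc.1, hc.2, e, map_zero]
  have hcount := hltl' t htt0 b hshort hbvol.le
  have hfr : finrank ℝ (WS k) = 2 * n := by
    rw [← L.toLinearEquiv.finrank_eq, Module.finrank_prod, mixedEmbedding.finrank, ← hnn]
    ring
  rw [hfr, htT, hbvol] at hcount
  obtain ⟨G, hG⟩ : ∃ G : Set (𝓞 k × 𝓞 k), G = {p : 𝓞 k × 𝓞 k |
        (∀ q ∈ Q, ¬ (p.1 ∈ q.asIdeal ∧ p.2 ∈ q.asIdeal)) ∧
        hk g p.1 p.2 ∈ Φ.F ∧ nr (hk g p.1 p.2) ≤ T ∧
        ∀ v : InfinitePlace k, η / 2 * v ((mm g : 𝓞 k) : k) ^ (1 / 4 : ℝ) ≤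
          v ((gval g p.1 p.2 : 𝓞 k) : k)} := ⟨_, rfl⟩
  rw [← hG]
  have hGfin : G.Finite := by
    refine (fin_marks Φ g L hLw T (hbd T hT0).1).subset (fun p hp => ?_)
    rw [hG] at hp
    exact ⟨hp.2.1, hp.2.2.1⟩
  have hfinq : Finite (𝓞 k ⧸ I) := Ideal.finiteQuotientOfFreeOfNeBot I hI
  have hSfin : S.Finite := Set.toFinite S
  have habs : 0 < Ideal.absNorm I := by
    rw [Nat.pos_iff_ne_zero, Ne, Ideal.absNorm_eq_zero_iff]
    exact hI
  obtain ⟨f, hfdef⟩ : ∃ f : 𝓞 k × 𝓞 k → (𝓞 k ⧸ I) × (𝓞 k ⧸ I),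
    f = fun p => (Ideal.Quotient.mk I p.1, Ideal.Quotient.mk I p.2) := ⟨_, rfl⟩
  have hclass : ∀ c ∈ hSfin.toFinset, ((volume (DD Φ N η)).toReal - ε / 2 ^ (n + 1)) * T /
      ((cov k * (Ideal.absNorm I : ℝ)) ^ 2 / 2 ^ n) ≤
      ((hGfin.toFinset.filter (fun p => f p = c)).card : ℝ) := by
    intro c hc
    rw [Set.Finite.mem_toFinset] at hc
    obtain ⟨Xc, hXc⟩ := Ideal.Quotient.mk_surjective c.1
    obtain ⟨Yc, hYc⟩ := Ideal.Quotient.mk_surjective c.2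
    obtain ⟨hAfin, hAc⟩ := hcount (L (pr Xc Yc))
    have hV : 0 < (cov k * (Ideal.absNorm I : ℝ)) ^ 2 / 2 ^ n := by
      have : (0 : ℝ) < (Ideal.absNorm I : ℝ) := by exact_mod_cast habs
      positivity
    rw [div_le_iff₀ hV]
    refine hAc.trans (mul_le_mul_of_nonneg_right ?_ hV.le)
    rw [Set.ncard_eq_toFinset_card _ hAfin]
    have hex : ∀ y : WS k, y ∈ hAfin.toFinset → ∃ p : 𝓞 k × 𝓞 k,
        p ∈ hGfin.toFinset.filter (fun p => f p = c) ∧
          L (pr Xc Yc) + y = L (pr p.1 p.2) := by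
      intro y hy
      rw [Set.Finite.mem_toFinset] at hy
      obtain ⟨X, hX, Y, hY, rfl⟩ := hspan y hy.1
      have hzz : L (pr Xc Yc) + L (pr X Y) = L (pr (Xc + X) (Yc + Y)) := by
        rw [pr_add, map_add]
      have hreg := region Φ N g hnr (Xc + X) (Yc + Y) (L (pr (Xc + X) (Yc + Y)))
        (hLw _ _) (hL _ _).2.1 (hL _ _).2.2 t η ht1 (by
        rw [← hzz]
        exact hy.2)
      have hgc : f (Xc + X, Yc + Y) = c := by
        rw [hfdef]
        have e1 : Ideal.Quotient.mk I (Xc + X) = c.1 := by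
          rw [map_add, Ideal.Quotient.eq_zero_iff_mem.2 hX, add_zero, hXc]
        have e2 : Ideal.Quotient.mk I (Yc + Y) = c.2 := by
          rw [map_add, Ideal.Quotient.eq_zero_iff_mem.2 hY, add_zero, hYc]
        exact Prod.ext e1 e2
      refine ⟨(Xc + X, Yc + Y), Finset.mem_filter.2 ⟨?_, hgc⟩, hzz⟩
      rw [Set.Finite.mem_toFinset, hG]
      refine ⟨hS1 _ _ ?_, hreg.1, ?_, hreg.2.2⟩
      · have e1 : (Ideal.Quotient.mk I (Xc + X), Ideal.Quotient.mk I (Yc + Y)) = c := by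
          rw [← hgc, hfdef]
        rw [e1]
        exact hc
      · rw [← htT, hnn]
        exact hreg.2.1
    choose! F hF1 hF2 using hex
    exact_mod_cast Finset.card_le_card_of_injOn F hF1 (fun y hy y' hy' h => by
      have e1 := hF2 y hy
      have e2 := hF2 y' hy'
      rw [h, ← e2] at e1
      exact add_left_cancel e1)
  have hsum : (hSfin.toFinset.card : ℝ) * (((volume (DD Φ N η)).toReal - ε / 2 ^ (n + 1)) * T /
      ((cov k * (Ideal.absNorm I : ℝ)) ^ 2 / 2 ^ n)) ≤ (G.ncard : ℝ) := by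
    rw [Set.ncard_eq_toFinset_card G hGfin, ← nsmul_eq_mul, ← Finset.sum_const]
    refine (Finset.sum_le_sum hclass).trans ?_
    rw [← Nat.cast_sum, Finset.sum_card_fiberwise_eq_card_filter]
    exact_mod_cast Finset.card_filter_le _ _
  rw [Set.ncard_eq_toFinset_card S hSfin] at hS2
  exact final_ineq _ (cov k) (Ideal.absNorm I : ℝ) Φ.w _ ε T _ n (prod_nonneg' Q) hD
    (by exact_mod_cast habs) hT0 hvol hS2 _ (Nat.cast_nonneg _) hsum

end Pool.Agent.LeoC.H89
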